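import Pool.Agent.CRT.Stmts
import Pool.Agent.CRP.Defs

/-!
# Squad CRT, row ANA: the analytic half
-/

set_option autoImplicit false

noncomputable section

namespace Pool.Agent.CRT.H30

open Set Filter Topology MeasureTheory Pool.Agent.CRT

/-- the shape of the quadratic polynomial with the coefficients `Q` -/
def sh (Q : ℝ × ℝ × ℝ) : ℝ × ℝ := Q.1⁻¹ • Q.2

/-- almost every quadratic polynomial has a good shape -/
theorem sh_ae {P : ℝ × ℝ → Prop} (h : ∀ᵐ w : ℝ × ℝ, P w) :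
    ∀ᵐ Q : ℝ × ℝ × ℝ, Q.1 ≠ 0 → P (sh Q) := by
  set B : Set (ℝ × ℝ) := {w | ¬ P w} with hB
  have hB0 : volume B = 0 := h
  set N : Set (ℝ × ℝ) := toMeasurable volume B with hN
  have hNm : MeasurableSet N := measurableSet_toMeasurable _ _
  have hN0 : volume N = 0 := by
    rw [hN, measure_toMeasurable, hB0]
  have hsm : Measurable sh := by
    unfold sh
    fun_prop
  set Z : Set (ℝ × ℝ × ℝ) := {Q | Q.1 ≠ 0 ∧ sh Q ∈ N} with hZ
  have hZm : MeasurableSet Z :=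
    ((measurableSet_singleton (0 : ℝ)).compl.preimage measurable_fst).inter (hNm.preimage hsm)
  have hZ0 : volume Z = 0 := by
    rw [Measure.volume_eq_prod, Measure.measure_prod_null hZm]
    refine Eventually.of_forall fun q => ?_
    show volume (Prod.mk q ⁻¹' Z) = 0
    by_cases hq : q = 0
    · have : Prod.mk q ⁻¹' Z = ∅ := by
        ext v
        simp [hZ, hq]
      rw [this, measure_empty]
    · refine measure_mono_null (t := (fun v : ℝ × ℝ => q⁻¹ • v) ⁻¹' N) ?_ ?_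
      · rintro v ⟨-, h2⟩
        exact h2
      · rw [Measure.addHaar_preimage_smul volume (inv_ne_zero hq), hN0, mul_zero]
  refine measure_mono_null (t := Z) ?_ hZ0
  intro Q hQ
  have hQ' : ¬ (Q.1 ≠ 0 → P (sh Q)) := hQ
  push Not at hQ'
  exact ⟨hQ'.1, subset_toMeasurable _ _ hQ'.2⟩

/-- the set of the `(x, s)` with `s (1, x) ∈ O` -/
def Fi (O : Set (ℝ × ℝ)) : Set (ℝ × ℝ) := {z | 0 < z.2 ∧ z.2 • ((1 : ℝ), z.1) ∈ O}

theorem fi_open {O : Set (ℝ × ℝ)} (hO : IsOpen O) : IsOpen (Fi O) := by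
  have h1 : IsOpen {z : ℝ × ℝ | 0 < z.2} := isOpen_lt continuous_const continuous_snd
  have h2 : Continuous fun z : ℝ × ℝ => z.2 • ((1 : ℝ), z.1) := by fun_prop
  exact h1.inter (hO.preimage h2)

theorem fi_gap {O : Set (ℝ × ℝ)} {a R : ℝ} (ha : 0 < a)
    (h : ∀ x ∈ Icc (-1 : ℝ) 1, ∀ s₁ s₂ : ℝ, 0 < s₁ → s₁ < s₂ →
      s₁ • ((1 : ℝ), x) ∈ O → s₂ • ((1 : ℝ), x) ∈ O → s₂ - s₁ < a ∨ R ≤ s₂ - s₁) :
    Gap (Fi O) a R := by
  rintro x hx σ σ' ⟨h1, h2⟩ ⟨h3, h4⟩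
  rcases lt_trichotomy σ σ' with h5 | h5 | h5
  · rw [abs_sub_comm, abs_of_pos (sub_pos.2 h5)]
    exact (h x hx σ σ' h1 h5 h2 h4).imp_left le_of_lt
  · left
    rw [h5, sub_self, abs_zero]
    exact ha.le
  · rw [abs_of_pos (sub_pos.2 h5)]
    exact (h x hx σ' σ h3 h5 h4 h2).imp_left le_of_lt

/-- ANA -/
theorem ana (hTHB : ThbStmt) (hNUL : NulStmt) : Pool.Agent.CRP.AnStmt := by
  intro K hK
  have hK0 : 0 < K := by linarith
  have hm : (1 : ℝ) ≤ K ^ 2 := by nlinarith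
  obtain ⟨C, hC1, hC⟩ := hTHB (K ^ 2) hm
  have hC0 : 0 < C := by linarith
  refine ⟨C⁻¹, inv_pos.2 hC0, ?_⟩
  intro O a R hO hR ha haR hgap
  have h1 : C * a ≤ R := by
    have h2 : C * a ≤ C * (C⁻¹ * R) := mul_le_mul_of_nonneg_left haR hC0.le
    rwa [← mul_assoc, mul_inv_cancel₀ hC0.ne', one_mul] at h2
  have h2 := sh_ae (hC (Fi O) a R ha h1 (fi_gap ha hgap))
  filter_upwards [h2] with Q hQ
  rintro ⟨q1, q2, q3, q4⟩ ⟨t, ht, hx⟩
  have hq : K⁻¹ ≤ Q.1 := by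
    have := q4 0 ⟨by norm_num, by norm_num⟩
    simpa using this
  have hq0 : 0 < Q.1 := lt_of_lt_of_le (inv_pos.2 hK0) hq
  have hqK : Q.1 ≤ K := (le_abs_self _).trans q1
  have hqi : Q.1⁻¹ ≤ K := by
    rw [inv_le_comm₀ hq0 hK0]
    exact hq
  have hqi0 : 0 < Q.1⁻¹ := inv_pos.2 hq0
  have e : ∀ x : ℝ, Q.1 + Q.2.1 * x + Q.2.2 * x ^ 2 =
      Q.1 * (1 + (sh Q).1 * x + (sh Q).2 * x ^ 2) := by
    intro x
    have hne := hq0.ne'
    simp only [sh, Prod.smul_fst, Prod.smul_snd, smul_eq_mul]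
    field_simp
  have hreg : sh Q ∈ Reg (K ^ 2) := by
    refine ⟨?_, ?_, ?_⟩
    · simp only [sh, Prod.smul_fst, smul_eq_mul]
      rw [abs_mul, abs_of_pos hqi0, sq]
      exact mul_le_mul hqi q2 (abs_nonneg _) hK0.le
    · simp only [sh, Prod.smul_snd, smul_eq_mul]
      rw [abs_mul, abs_of_pos hqi0, sq]
      exact mul_le_mul hqi q3 (abs_nonneg _) hK0.le
    · intro x hx'
      have h3 := q4 x hx'
      rw [e x] at h3
      have h4 : 0 ≤ 1 + (sh Q).1 * x + (sh Q).2 * x ^ 2 := by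
        by_contra h5
        push Not at h5
        have h6 : Q.1 * (1 + (sh Q).1 * x + (sh Q).2 * x ^ 2) < 0 := mul_neg_of_pos_of_neg hq0 h5
        have h7 : 0 < K⁻¹ := inv_pos.2 hK0
        linarith
      have h5 : K⁻¹ ≤ K * (1 + (sh Q).1 * x + (sh Q).2 * x ^ 2) :=
        h3.trans (mul_le_mul_of_nonneg_right hqK h4)
      have h6 : 1 / K ^ 2 = K⁻¹ * K⁻¹ := by
        rw [one_div, sq, mul_inv]
      rw [h6]
      have h7 : K⁻¹ * K⁻¹ ≤ K⁻¹ * (K * (1 + (sh Q).1 * x + (sh Q).2 * x ^ 2)) :=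
        mul_le_mul_of_nonneg_left h5 (inv_pos.2 hK0).le
      rwa [← mul_assoc K⁻¹ K, inv_mul_cancel₀ hK0.ne', one_mul] at h7
  have h3 := hQ hq0.ne' hreg
  set A : ℝ := √Q.1 with hA
  have hA0 : 0 < A := Real.sqrt_pos.2 hq0
  have ht' : Tendsto (fun n => t n / A) atTop atTop := ht.atTop_div_const hA0
  refine hNUL (Fi O) (sh Q) (fun n => t n / A) (fi_open hO).measurableSet (ht'.eventually h3) ?_
  rw [ae_restrict_iff' measurableSet_Icc] at hx
  filter_upwards [hx] with x hx'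
  by_cases hxI : x ∈ Icc (-1 : ℝ) 1
  · filter_upwards [hx' hxI, ht'.eventually (eventually_gt_atTop 0)] with n hn hn0
    intro hexc
    apply hexc.2
    have h4 : √(Q.1 + Q.2.1 * x + Q.2.2 * x ^ 2) =
        A * √(1 + (sh Q).1 * x + (sh Q).2 * x ^ 2) := by
      rw [e x, Real.sqrt_mul hq0.le]
    have h5 : 0 < 1 + (sh Q).1 * x + (sh Q).2 * x ^ 2 := by
      have h6 := hreg.2.2 x hxI
      have h7 : (0 : ℝ) < 1 / K ^ 2 := by positivity
      linarith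
    rw [h4, ← div_div] at hn
    exact ⟨div_pos hn0 (Real.sqrt_pos.2 h5), hn⟩
  · exact Eventually.of_forall fun n h => hxI h.1

end Pool.Agent.CRT.H30
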