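import Pool.Agent.CRT.Stmts

/-!
# Squad CRT, row MAT: from the shapes to the matrices
-/

set_option autoImplicit false

noncomputable section

namespace Pool.Agent.CRT.H30

open Set Filter Topology MeasureTheory Pool.Agent.CRT

/-- the set of the shapes -/
def UU : Set (ℝ × ℝ) := {w | 0 < 4 * w.2 - w.1 ^ 2}

/-- the inverse of the shape map for fixed `u`, with the sign `ε` -/
def gg (u : Pl) (ε : ℝ) (w : ℝ × ℝ) : Pl :=
  (w.1 / 2 * u.1 - ε * Real.sqrt (w.2 - w.1 ^ 2 / 4) * u.2,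
    w.1 / 2 * u.2 + ε * Real.sqrt (w.2 - w.1 ^ 2 / 4) * u.1)

theorem gg_diff (u : Pl) (ε : ℝ) : DifferentiableOn ℝ (gg u ε) UU := by
  intro w hw
  have h0 : w.2 - w.1 ^ 2 / 4 ≠ 0 := by
    have h1 : 0 < 4 * w.2 - w.1 ^ 2 := hw
    have h2 : 0 < w.2 - w.1 ^ 2 / 4 := by linarith
    exact h2.ne'
  have h1 : DifferentiableAt ℝ (fun w : ℝ × ℝ => Real.sqrt (w.2 - w.1 ^ 2 / 4)) w := by
    have h2 : DifferentiableAt ℝ (fun w : ℝ × ℝ => w.2 - w.1 ^ 2 / 4) w := by fun_prop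
    exact h2.sqrt h0
  have h2 : DifferentiableAt ℝ (gg u ε) w := by
    unfold gg
    fun_prop
  exact h2.differentiableWithinAt

theorem gg_null (u : Pl) (ε : ℝ) (N : Set (ℝ × ℝ)) (hN : volume N = 0) (hU : N ⊆ UU) :
    volume (gg u ε '' N) = 0 :=
  addHaar_image_eq_zero_of_differentiableOn_of_addHaar_eq_zero volume ((gg_diff u ε).mono hU) hN

theorem normsq_pos {u : Pl} (h : u ≠ 0) : 0 < u.1 ^ 2 + u.2 ^ 2 := by
  by_contra h1
  have h2 : u.1 ^ 2 + u.2 ^ 2 ≤ 0 := not_lt.1 h1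
  have h3 : u.1 = 0 := by nlinarith [sq_nonneg u.1, sq_nonneg u.2]
  have h4 : u.2 = 0 := by nlinarith [sq_nonneg u.1, sq_nonneg u.2]
  exact h (Prod.ext h3 h4)

theorem shp_rel {u v : Pl} (h : u ≠ 0) :
    4 * (shp (u, v)).2 - (shp (u, v)).1 ^ 2 =
      (2 * det2 (u, v) / (u.1 ^ 2 + u.2 ^ 2)) ^ 2 := by
  have h1 := (normsq_pos h).ne'
  simp only [shp, det2]
  field_simp
  ring

theorem u_ne {u v : Pl} (h : det2 (u, v) ≠ 0) : u ≠ 0 := by
  rintro rfl
  apply h
  simp [det2]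

theorem shp_mem {z : Pl × Pl} (h : det2 z ≠ 0) : shp z ∈ UU := by
  obtain ⟨u, v⟩ := z
  have hu := u_ne h
  show 0 < 4 * (shp (u, v)).2 - (shp (u, v)).1 ^ 2
  rw [shp_rel hu]
  have h1 := (normsq_pos hu).ne'
  exact pow_pos_of_ne h h1
where
  pow_pos_of_ne {a b : ℝ} (ha : a ≠ 0) (hb : b ≠ 0) : 0 < (2 * a / b) ^ 2 := by
    have : 2 * a / b ≠ 0 := div_ne_zero (mul_ne_zero two_ne_zero ha) hb
    positivity

theorem gg_shp {u v : Pl} (h : det2 (u, v) ≠ 0) :
    v = gg u 1 (shp (u, v)) ∨ v = gg u (-1) (shp (u, v)) := by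
  have hu := u_ne h
  have hc := normsq_pos hu
  have h1 : (shp (u, v)).2 - (shp (u, v)).1 ^ 2 / 4 = (det2 (u, v) / (u.1 ^ 2 + u.2 ^ 2)) ^ 2 := by
    have := shp_rel (v := v) hu
    have h2 : (2 * det2 (u, v) / (u.1 ^ 2 + u.2 ^ 2)) ^ 2 =
      4 * (det2 (u, v) / (u.1 ^ 2 + u.2 ^ 2)) ^ 2 := by ring
    rw [h2] at this
    linarith
  have key : ∀ κ : ℝ, κ = det2 (u, v) / (u.1 ^ 2 + u.2 ^ 2) →
      v = ((shp (u, v)).1 / 2 * u.1 - κ * u.2, (shp (u, v)).1 / 2 * u.2 + κ * u.1) := by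
    rintro κ rfl
    have hc' := hc.ne'
    ext
    · simp only [shp, det2]
      field_simp
      ring
    · simp only [shp, det2]
      field_simp
      ring
  rcases lt_or_gt_of_ne h with h2 | h2
  · right
    unfold gg
    refine key _ ?_
    rw [h1, Real.sqrt_sq_eq_abs, abs_of_neg (div_neg_of_neg_of_pos h2 hc)]
    ring
  · left
    unfold gg
    refine key _ ?_
    rw [h1, Real.sqrt_sq_eq_abs, abs_of_pos (div_pos h2 hc)]
    ring

theorem shp_meas : Measurable shp := by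
  unfold shp
  fun_prop

theorem det_meas : Measurable det2 := by
  unfold det2
  fun_prop

/-- MAT -/
theorem mat : MatStmt := by
  intro G hG
  set B : Set (ℝ × ℝ) := {w | ¬ (0 < 4 * w.2 - w.1 ^ 2 → w ∈ G)} with hB
  have hB0 : volume B = 0 := hG
  set N : Set (ℝ × ℝ) := toMeasurable volume B ∩ UU with hN
  have hUm : MeasurableSet UU := by
    have h1 : Measurable fun w : ℝ × ℝ => 4 * w.2 - w.1 ^ 2 := by fun_prop
    exact measurableSet_lt measurable_const h1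
  have hNm : MeasurableSet N := (measurableSet_toMeasurable _ _).inter hUm
  have hN0 : volume N = 0 := by
    refine measure_mono_null inter_subset_left ?_
    rw [measure_toMeasurable, hB0]
  have hNU : N ⊆ UU := inter_subset_right
  set Z : Set (Pl × Pl) := {z | det2 z ≠ 0 ∧ shp z ∈ N} with hZ
  have hZm : MeasurableSet Z :=
    ((measurableSet_singleton (0 : ℝ)).compl.preimage det_meas).inter (hNm.preimage shp_meas)
  have hZ0 : volume Z = 0 := by
    rw [Measure.volume_eq_prod, Measure.measure_prod_null hZm]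
    refine Eventually.of_forall fun u => ?_
    show volume (Prod.mk u ⁻¹' Z) = 0
    refine measure_mono_null (t := gg u 1 '' N ∪ gg u (-1) '' N) ?_ ?_
    · rintro v ⟨h1, h2⟩
      rcases gg_shp h1 with h3 | h3
      · exact Or.inl ⟨_, h2, h3.symm⟩
      · exact Or.inr ⟨_, h2, h3.symm⟩
    · exact measure_union_null (gg_null u 1 N hN0 hNU) (gg_null u (-1) N hN0 hNU)
  refine measure_mono_null (t := Z) ?_ hZ0
  intro z hz
  have hz' : ¬ (det2 z ≠ 0 → shp z ∈ G) := hz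
  push Not at hz'
  obtain ⟨h1, h2⟩ := hz'
  have h3 := shp_mem h1
  refine ⟨h1, subset_toMeasurable _ _ ?_, h3⟩
  intro h4
  exact h2 (h4 h3)

end Pool.Agent.CRT.H30
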